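import Mathlib
import Pool.Agent.Q96.LorentzSub

/-!
# MP_c4013e_an, Q1 (answer: no)

For every `0 < p < 1` there is an infinite dimensional quasi-Banach space (the Lorentz space
`ℓ_{2,r}`, `0 < r < p`) with a bidemocratic basis, none of whose infinite dimensional subspaces has
an equivalent `p`-norm.
-/

set_option autoImplicit false

open Filter Topology
open scoped ENNReal

namespace Pool.Agent.Results.MP_c4013e_an.NoPNormableSubspace

/-- `N` is a quasi-norm on `X` -/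
structure IsQuasiNorm (𝕜 : Type) {X : Type} [RCLike 𝕜] [AddCommGroup X] [Module 𝕜 X]
    (N : X → ℝ) : Prop where
  nonneg : ∀ x, 0 ≤ N x
  eq_zero : ∀ x, N x = 0 → x = 0
  smul : ∀ (a : 𝕜) (x : X), N (a • x) = ‖a‖ * N x
  quasi : ∃ κ : ℝ, 1 ≤ κ ∧ ∀ x y, N (x + y) ≤ κ * (N x + N y)

/-- `X` is complete for `N` -/
def IsComplete {X : Type} [AddCommGroup X] (N : X → ℝ) : Prop :=
  ∀ s : ℕ → X, (∀ ε > 0, ∃ n0, ∀ m ≥ n0, ∀ n ≥ n0, N (s m - s n) < ε) →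
    ∃ x, ∀ ε > 0, ∃ n0, ∀ n ≥ n0, N (s n - x) < ε

/-- `N` is a `p`-norm on `X` -/
def IsPNorm (𝕜 : Type) {X : Type} [RCLike 𝕜] [AddCommGroup X] [Module 𝕜 X] (p : ℝ)
    (N : X → ℝ) : Prop :=
  IsQuasiNorm 𝕜 N ∧ ∀ x y, N (x + y) ^ p ≤ N x ^ p + N y ^ p

/-- the subspace `Y` has an equivalent `p`-norm -/
def HasEquivPNorm (𝕜 : Type) {X : Type} [RCLike 𝕜] [AddCommGroup X] [Module 𝕜 X] (p : ℝ)
    (N : X → ℝ) (Y : Submodule 𝕜 X) : Prop :=
  ∃ (M : Y → ℝ) (C : ℝ), IsPNorm 𝕜 p M ∧ 1 ≤ C ∧ ∀ y : Y, C⁻¹ * N y ≤ M y ∧ M y ≤ C * N y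

/-- the norm of the linear functional `f` -/
noncomputable def dualNorm {𝕜 X : Type} [RCLike 𝕜] [AddCommGroup X] [Module 𝕜 X] (N : X → ℝ)
    (f : X →ₗ[𝕜] 𝕜) : ℝ≥0∞ :=
  ⨆ (x : X) (_ : N x ≤ 1), ENNReal.ofReal ‖f x‖

/-- `e` is a basis of `(X, N)` with coordinate functionals `f` -/
structure IsBasis {𝕜 X : Type} [RCLike 𝕜] [AddCommGroup X] [Module 𝕜 X] (N : X → ℝ)
    (e : ℕ → X) (f : ℕ → X →ₗ[𝕜] 𝕜) : Prop where
  dense : ∀ x, ∀ ε > 0, ∃ y ∈ Submodule.span 𝕜 (Set.range e), N (x - y) < ε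
  biorth : ∀ k n, f k (e n) = if k = n then 1 else 0
  inf_pos : ∃ c : ℝ, 0 < c ∧ ∀ n, c ≤ N (e n)
  sup_fin : ∃ C : ℝ, ∀ n, N (e n) ≤ C
  dual_fin : ∃ C : ℝ, ∀ n, dualNorm N (f n) ≤ ENNReal.ofReal C

/-- `φ(m)` -/
noncomputable def phi {X : Type} [AddCommGroup X] (N : X → ℝ) (e : ℕ → X) (m : ℕ) : ℝ≥0∞ :=
  ⨆ (A : Finset ℕ) (_ : A.card ≤ m), ENNReal.ofReal (N (∑ n ∈ A, e n))

/-- `φ*(m)` -/
noncomputable def phiStar {𝕜 X : Type} [RCLike 𝕜] [AddCommGroup X] [Module 𝕜 X] (N : X → ℝ)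
    (f : ℕ → X →ₗ[𝕜] 𝕜) (m : ℕ) : ℝ≥0∞ :=
  ⨆ (A : Finset ℕ) (_ : A.card ≤ m), dualNorm N (∑ n ∈ A, f n)

/-- the basis `e` with coordinate functionals `f` is bidemocratic -/
def Bidemocratic {𝕜 X : Type} [RCLike 𝕜] [AddCommGroup X] [Module 𝕜 X] (N : X → ℝ)
    (e : ℕ → X) (f : ℕ → X →ₗ[𝕜] 𝕜) : Prop :=
  ∃ C : ℝ, ∀ m : ℕ, 1 ≤ m → phi N e m * phiStar N f m ≤ ENNReal.ofReal (C * m)

open Q96.LorentzQ

section

variable {𝕜 : Type} [RCLike 𝕜] {r : ℝ} {hr : 0 < r} {hr1 : r ≤ 1}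

/-- the quasi-norm of the Lorentz space -/
noncomputable def NN (x : LX 𝕜 r hr hr1) : ℝ := F r x.1 ^ (1 / r)

lemma NN_pow (x : LX 𝕜 r hr hr1) : NN x ^ r = F r x.1 := by
  unfold NN
  rw [← Real.rpow_mul (F_nonneg x), one_div_mul_cancel hr.ne', Real.rpow_one]

lemma NN_nonneg (x : LX 𝕜 r hr hr1) : 0 ≤ NN x := Real.rpow_nonneg (F_nonneg x) _

lemma NN_lt {x : LX 𝕜 r hr hr1} {ε : ℝ} (hε : 0 ≤ ε) : NN x < ε ↔ F r x.1 < ε ^ r := by
  rw [← NN_pow, Real.rpow_lt_rpow_iff (NN_nonneg x) hε hr]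

lemma NN_le {x : LX 𝕜 r hr hr1} {ε : ℝ} (hε : 0 ≤ ε) : NN x ≤ ε ↔ F r x.1 ≤ ε ^ r := by
  rw [← NN_pow, Real.rpow_le_rpow_iff (NN_nonneg x) hε hr]

theorem isQuasiNorm : IsQuasiNorm 𝕜 (NN (𝕜 := 𝕜) (hr := hr) (hr1 := hr1)) where
  nonneg := NN_nonneg
  eq_zero := fun x hx => by
    apply F_eq_zero
    rw [← NN_pow, hx, Real.zero_rpow hr.ne']
  smul := fun a x => by
    unfold NN
    rw [F_smul, Real.mul_rpow (Real.rpow_nonneg (norm_nonneg _) _) (F_nonneg x),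
      ← Real.rpow_mul (norm_nonneg _), mul_one_div_cancel hr.ne', Real.rpow_one]
  quasi := by
    refine ⟨2 ^ (1 / r), Real.one_le_rpow (by norm_num) (by positivity), fun x y => ?_⟩
    have h0 := NN_nonneg x
    have h0' := NN_nonneg y
    rw [NN_le (by positivity), Real.mul_rpow (by positivity) (by positivity),
      ← Real.rpow_mul (by norm_num), one_div_mul_cancel hr.ne', Real.rpow_one]
    have h1 := F_add_le x y
    rw [← NN_pow x, ← NN_pow y] at h1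
    have h2 : NN x ^ r ≤ (NN x + NN y) ^ r := Real.rpow_le_rpow h0 (by linarith) hr.le
    have h3 : NN y ^ r ≤ (NN x + NN y) ^ r := Real.rpow_le_rpow h0' (by linarith) hr.le
    linarith

theorem isComplete : IsComplete (NN (𝕜 := 𝕜) (hr := hr) (hr1 := hr1)) := by
  intro s hs
  obtain ⟨x, hx⟩ := complete s (fun ε hε => by
    obtain ⟨n0, hn0⟩ := hs (ε ^ (1 / r)) (Real.rpow_pos_of_pos hε _)
    refine ⟨n0, fun m hm n hn => ?_⟩
    have := hn0 m hm n hn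
    rwa [NN_lt (by positivity), ← Real.rpow_mul hε.le, one_div_mul_cancel hr.ne',
      Real.rpow_one] at this)
  refine ⟨x, fun ε hε => ?_⟩
  obtain ⟨n0, hn0⟩ := hx (ε ^ r) (Real.rpow_pos_of_pos hε _)
  exact ⟨n0, fun n hn => (NN_lt hε.le).2 (hn0 n hn)⟩

lemma S_ind_le (hr : 0 < r) (hr1 : r ≤ 1) (A : Finset ℕ) (J : Finset ℕ) (π : ℕ → ℕ)
    (h : Set.InjOn π J) :
    S r J π (fun i => if i ∈ A then (1 : 𝕜) else 0) ≤ ∑ j ∈ Finset.range A.card, w r j := by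
  have h1 : S r J π (fun i => if i ∈ A then (1 : 𝕜) else 0) =
      ∑ j ∈ J.filter (fun j => π j ∈ A), w r j := by
    unfold S
    rw [Finset.sum_filter]
    apply Finset.sum_congr rfl
    intro j _
    beta_reduce
    split_ifs with h2
    · rw [norm_one, Real.one_rpow, mul_one]
    · rw [norm_zero, Real.zero_rpow hr.ne', mul_zero]
  rw [h1]
  refine (sum_w_le_range hr1 _).trans ?_
  have hcard : (J.filter (fun j => π j ∈ A)).card ≤ A.card := by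
    apply Finset.card_le_card_of_injOn π
    · intro j hj
      have : j ∈ J.filter (fun j => π j ∈ A) := hj
      exact (Finset.mem_filter.1 this).2
    · apply h.mono
      intro j hj
      have : j ∈ J.filter (fun j => π j ∈ A) := hj
      exact (Finset.mem_filter.1 this).1
  apply Finset.sum_le_sum_of_subset_of_nonneg
  · intro j hj
    rw [Finset.mem_range] at hj ⊢
    omega
  · intro j _ _
    exact (w_pos r j).le

/-- indicator vectors -/
noncomputable def ind (𝕜 : Type) [RCLike 𝕜] {r : ℝ} (hr : 0 < r) (hr1 : r ≤ 1) (A : Finset ℕ) :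
    LX 𝕜 r hr hr1 :=
  ⟨fun i => if i ∈ A then (1 : 𝕜) else 0, ⟨_, fun J π h => S_ind_le hr hr1 A J π h⟩, by
    intro ε hε
    refine ⟨A.sup id + 1, fun J π h h2 => ?_⟩
    have : S r J π (fun i => if i ∈ A then (1 : 𝕜) else 0) = 0 := by
      unfold S
      apply Finset.sum_eq_zero
      intro j hj
      beta_reduce
      rw [if_neg, norm_zero, Real.zero_rpow hr.ne', mul_zero]
      intro h3
      have h4 : π j ≤ A.sup id := Finset.le_sup (f := id) h3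
      have h5 := h2 j hj
      omega
    rw [this]
    exact hε.le⟩

/-- the unit vectors -/
noncomputable def e (𝕜 : Type) [RCLike 𝕜] {r : ℝ} (hr : 0 < r) (hr1 : r ≤ 1) (n : ℕ) :
    LX 𝕜 r hr hr1 := ind 𝕜 hr hr1 {n}

lemma e_apply (n i : ℕ) : (e 𝕜 hr hr1 n).1 i = if i = n then 1 else 0 := by
  simp [e, ind]

/-- evaluation at a coordinate, as a linear map -/
noncomputable def ev (𝕜 : Type) [RCLike 𝕜] {r : ℝ} (hr : 0 < r) (hr1 : r ≤ 1) (n : ℕ) :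
    LX 𝕜 r hr hr1 →ₗ[𝕜] 𝕜 :=
  (LinearMap.proj n).comp (LX 𝕜 r hr hr1).subtype

lemma ev_apply (n : ℕ) (x : LX 𝕜 r hr hr1) : ev 𝕜 hr hr1 n x = x.1 n := rfl

lemma sum_smul_e_apply (A : Finset ℕ) (a : ℕ → 𝕜) (i : ℕ) :
    (∑ n ∈ A, a n • e 𝕜 hr hr1 n).1 i = if i ∈ A then a i else 0 := by
  have h1 : (∑ n ∈ A, a n • e 𝕜 hr hr1 n).1 i = ev 𝕜 hr hr1 i (∑ n ∈ A, a n • e 𝕜 hr hr1 n) := rfl
  rw [h1, map_sum]
  have h2 : ∀ n ∈ A, ev 𝕜 hr hr1 i (a n • e 𝕜 hr hr1 n) = if i = n then a n else 0 := by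
    intro n _
    rw [map_smul, ev_apply, e_apply]
    split_ifs <;> simp
  rw [Finset.sum_congr rfl h2, Finset.sum_ite_eq]

lemma sum_e (A : Finset ℕ) : ∑ n ∈ A, e 𝕜 hr hr1 n = ind 𝕜 hr hr1 A := by
  apply Subtype.ext
  funext i
  have h := sum_smul_e_apply (𝕜 := 𝕜) (hr := hr) (hr1 := hr1) A (fun _ => 1) i
  simp only [one_smul] at h
  rw [h]
  rfl

lemma F_ind_le (A : Finset ℕ) : F r (ind 𝕜 hr hr1 A).1 ≤ 1 / (r / 2) * (A.card : ℝ) ^ (r / 2) := by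
  refine F_le _ _ fun J π h => ?_
  refine (S_ind_le hr hr1 A J π h).trans ?_
  exact sum_pow_le (by positivity) (by linarith) A.card

lemma norm_coord_le (x : LX 𝕜 r hr hr1) (n : ℕ) : ‖x.1 n‖ ≤ NN x := by
  have h := coord_le x n
  rw [← NN_pow, Real.rpow_le_rpow_iff (norm_nonneg _) (NN_nonneg x) hr] at h
  exact h

lemma sum_coord_le (x : LX 𝕜 r hr hr1) (hx : F r x.1 ≤ 1) (A : Finset ℕ) :
    ∑ n ∈ A, ‖x.1 n‖ ≤ ∑ j ∈ Finset.range A.card, ((j : ℝ) + 1) ^ ((1 / 2 : ℝ) - 1) := by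
  induction hn : A.card generalizing A with
  | zero =>
    rw [Finset.card_eq_zero] at hn
    subst hn
    simp
  | succ k ih =>
    have hne : A.Nonempty := by
      rw [← Finset.card_pos]; omega
    obtain ⟨n0, hn0, hmin⟩ := A.exists_min_image (fun n => ‖x.1 n‖) hne
    have h1 := ih (A.erase n0) (by rw [Finset.card_erase_of_mem hn0, hn]; rfl)
    rw [Finset.sum_range_succ, ← Finset.sum_erase_add A _ hn0]
    refine add_le_add h1 ?_
    have h2 := F_ge_of_card x A (t := ‖x.1 n0‖ ^ r) fun n hnA =>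
      Real.rpow_le_rpow (norm_nonneg _) (hmin n hnA) hr.le
    have h3 := le_sum_w hr1 A.card (by omega)
    have hk : (0 : ℝ) < (k : ℝ) + 1 := by positivity
    rw [hn] at h2 h3
    push_cast at h3
    have h4 : ‖x.1 n0‖ ^ r * ((k : ℝ) + 1) ^ (r / 2) ≤ 1 :=
      (mul_le_mul_of_nonneg_left h3 (Real.rpow_nonneg (norm_nonneg _) _)).trans (h2.trans hx)
    have h5 : ‖x.1 n0‖ ^ r ≤ (((k : ℝ) + 1) ^ ((1 / 2 : ℝ) - 1)) ^ r := by
      rw [← Real.rpow_mul hk.le, show ((1 / 2 : ℝ) - 1) * r = -(r / 2) by ring,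
        Real.rpow_neg hk.le, ← one_div, le_div_iff₀ (Real.rpow_pos_of_pos hk _)]
      exact h4
    exact (Real.rpow_le_rpow_iff (norm_nonneg _) (by positivity) hr).1 h5

theorem isBasis : IsBasis (NN (𝕜 := 𝕜) (hr := hr) (hr1 := hr1)) (e 𝕜 hr hr1) (ev 𝕜 hr hr1) where
  dense := by
    intro x ε hε
    obtain ⟨N, hN⟩ := x.2.2 (ε ^ r / 2) (by positivity)
    refine ⟨∑ n ∈ Finset.range N, x.1 n • e 𝕜 hr hr1 n, ?_, ?_⟩
    · exact Submodule.sum_mem _ fun n _ => Submodule.smul_mem _ _ (Submodule.subset_span ⟨n, rfl⟩)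
    · rw [NN_lt hε.le]
      have h1 : F r (x - ∑ n ∈ Finset.range N, x.1 n • e 𝕜 hr hr1 n).1 ≤ ε ^ r / 2 := by
        refine F_le _ _ fun J π h => ?_
        have h2 : S r J π (x - ∑ n ∈ Finset.range N, x.1 n • e 𝕜 hr hr1 n).1 =
            S r (J.filter (fun j => N ≤ π j)) π x.1 := by
          unfold S
          rw [Finset.sum_filter]
          apply Finset.sum_congr rfl
          intro j _
          have h3 : (x - ∑ n ∈ Finset.range N, x.1 n • e 𝕜 hr hr1 n).1 (π j) =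
              x.1 (π j) - (∑ n ∈ Finset.range N, x.1 n • e 𝕜 hr hr1 n).1 (π j) := rfl
          rw [h3, sum_smul_e_apply]
          split_ifs with h4 h5 h5
          · rw [Finset.mem_range] at h4; omega
          · rw [sub_self, norm_zero, Real.zero_rpow hr.ne', mul_zero]
          · rw [sub_zero]
          · rw [Finset.mem_range] at h4; omega
        rw [h2]
        refine hN _ π (h.mono ?_) ?_
        · intro j hj
          have : j ∈ J.filter (fun j => N ≤ π j) := hj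
          exact (Finset.mem_filter.1 this).1
        · intro j hj
          exact (Finset.mem_filter.1 hj).2
      have h2 : 0 < ε ^ r := Real.rpow_pos_of_pos hε _
      linarith
  biorth := by
    intro k n
    rw [ev_apply, e_apply]
  inf_pos := by
    refine ⟨1, one_pos, fun n => ?_⟩
    have := norm_coord_le (e 𝕜 hr hr1 n) n
    rwa [e_apply, if_pos rfl, norm_one] at this
  sup_fin := by
    refine ⟨(1 / (r / 2)) ^ (1 / r), fun n => ?_⟩
    have h := F_ind_le (𝕜 := 𝕜) (hr := hr) (hr1 := hr1) {n}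
    rw [Finset.card_singleton, Nat.cast_one, Real.one_rpow, mul_one] at h
    exact Real.rpow_le_rpow (F_nonneg _) h (by positivity)
  dual_fin := by
    refine ⟨1, fun n => ?_⟩
    unfold dualNorm
    refine iSup₂_le fun x hx => ENNReal.ofReal_le_ofReal ?_
    exact (norm_coord_le x n).trans hx

theorem bidemocratic :
    Bidemocratic (NN (𝕜 := 𝕜) (hr := hr) (hr1 := hr1)) (e 𝕜 hr hr1) (ev 𝕜 hr hr1) := by
  refine ⟨(1 / (r / 2)) ^ (1 / r) * 2, fun m hm => ?_⟩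
  have hm0 : (0 : ℝ) < m := by exact_mod_cast hm
  have h1 : phi (NN (𝕜 := 𝕜) (hr := hr) (hr1 := hr1)) (e 𝕜 hr hr1) m ≤
      ENNReal.ofReal ((1 / (r / 2)) ^ (1 / r) * (m : ℝ) ^ (1 / 2 : ℝ)) := by
    unfold phi
    refine iSup₂_le fun A hA => ENNReal.ofReal_le_ofReal ?_
    rw [sum_e]
    have hA' : (A.card : ℝ) ≤ m := by exact_mod_cast hA
    have h := F_ind_le (𝕜 := 𝕜) (hr := hr) (hr1 := hr1) A
    have h2 : F r (ind 𝕜 hr hr1 A).1 ≤ 1 / (r / 2) * (m : ℝ) ^ (r / 2) := by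
      refine h.trans (mul_le_mul_of_nonneg_left ?_ (by positivity))
      exact Real.rpow_le_rpow (by positivity) hA' (by positivity)
    have h3 : NN (ind 𝕜 hr hr1 A) ≤ (1 / (r / 2) * (m : ℝ) ^ (r / 2)) ^ (1 / r) :=
      Real.rpow_le_rpow (F_nonneg _) h2 (by positivity)
    refine h3.trans (le_of_eq ?_)
    rw [Real.mul_rpow (by positivity) (by positivity), ← Real.rpow_mul hm0.le]
    congr 2
    field_simp
  have h2 : phiStar (NN (𝕜 := 𝕜) (hr := hr) (hr1 := hr1)) (ev 𝕜 hr hr1) m ≤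
      ENNReal.ofReal (2 * (m : ℝ) ^ (1 / 2 : ℝ)) := by
    unfold phiStar dualNorm
    refine iSup₂_le fun A hA => iSup₂_le fun x hx => ENNReal.ofReal_le_ofReal ?_
    have hA' : (A.card : ℝ) ≤ m := by exact_mod_cast hA
    have hFx : F r x.1 ≤ 1 := by
      rw [← NN_pow]
      exact Real.rpow_le_one (NN_nonneg x) hx hr.le
    have h3 : ‖(∑ n ∈ A, ev 𝕜 hr hr1 n) x‖ ≤ ∑ n ∈ A, ‖x.1 n‖ := by
      rw [LinearMap.sum_apply]
      exact norm_sum_le _ _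
    have h4 := sum_coord_le x hFx A
    have h5 := sum_pow_le (s := 1 / 2) (by norm_num) (by norm_num) A.card
    have h6 : (A.card : ℝ) ^ (1 / 2 : ℝ) ≤ (m : ℝ) ^ (1 / 2 : ℝ) :=
      Real.rpow_le_rpow (by positivity) hA' (by positivity)
    have h7 : (1 : ℝ) / (1 / 2) = 2 := by norm_num
    rw [h7] at h5
    linarith
  refine (mul_le_mul' h1 h2).trans ?_
  rw [← ENNReal.ofReal_mul (by positivity)]
  apply ENNReal.ofReal_le_ofReal
  apply le_of_eq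
  have h3 : (m : ℝ) ^ (1 / 2 : ℝ) * (m : ℝ) ^ (1 / 2 : ℝ) = m := by
    rw [← Real.rpow_add hm0]
    norm_num
  calc (1 / (r / 2)) ^ (1 / r) * (m : ℝ) ^ (1 / 2 : ℝ) * (2 * (m : ℝ) ^ (1 / 2 : ℝ))
      = (1 / (r / 2)) ^ (1 / r) * 2 * ((m : ℝ) ^ (1 / 2 : ℝ) * (m : ℝ) ^ (1 / 2 : ℝ)) := by ring
    _ = _ := by rw [h3]

theorem infinite_dim : ¬ FiniteDimensional 𝕜 (LX 𝕜 r hr hr1) := by
  intro h
  have hli : LinearIndependent 𝕜 (e 𝕜 hr hr1) := by
    rw [linearIndependent_iff']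
    intro A g hg i hi
    have h1 := sum_smul_e_apply (𝕜 := 𝕜) (hr := hr) (hr1 := hr1) A g i
    rw [hg, if_pos hi] at h1
    exact h1.symm
  have := hli.finite
  exact not_finite ℕ

end

/-- **Answer to Q1: no.** For `𝕜 = ℝ` or `ℂ` and every `0 < p < 1` there are an infinite dimensional
quasi-Banach space with a bidemocratic basis none of whose infinite dimensional subspaces has an
equivalent `p`-norm. -/
theorem result (𝕜 : Type) [RCLike 𝕜] (p : ℝ) (hp : 0 < p) (hp1 : p < 1) :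
    ∃ (X : Type) (_ : AddCommGroup X) (_ : Module 𝕜 X) (N : X → ℝ) (e : ℕ → X)
      (f : ℕ → X →ₗ[𝕜] 𝕜),
      IsQuasiNorm 𝕜 N ∧ IsComplete N ∧ ¬ FiniteDimensional 𝕜 X ∧ IsBasis N e f ∧
      Bidemocratic N e f ∧
      ∀ Y : Submodule 𝕜 X, ¬ FiniteDimensional 𝕜 Y → ¬ HasEquivPNorm 𝕜 p N Y := by
  have hr : 0 < p / 2 := by positivity
  have hr1 : p / 2 ≤ 1 := by linarith
  refine ⟨LX 𝕜 (p / 2) hr hr1, inferInstance, inferInstance, NN, e 𝕜 hr hr1, ev 𝕜 hr hr1,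
    isQuasiNorm, isComplete, infinite_dim, isBasis, bidemocratic, ?_⟩
  rintro Y hY ⟨M, C, ⟨hM, hMp⟩, hC, hMN⟩
  have hC0 : 0 < C := by linarith
  refine no_pnorm Y hY M hM.nonneg (p := p) (by linarith) hC0 hMp (fun y => (hMN y).2) fun y => ?_
  have h := (hMN y).1
  rw [inv_mul_le_iff₀ hC0] at h
  exact h

end Pool.Agent.Results.MP_c4013e_an.NoPNormableSubspace
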